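import Mathlib

namespace Pool.Agent.Results.MP_354fda_al.Yes

open MvPolynomial Finset Relation

/-- vertices of the crown graph: an index and a side -/
abbrev V (n : ℕ) := Fin n × Bool

/-- adjacency in the crown graph -/
def Adj {n : ℕ} (u v : V n) : Prop := u.1 ≠ v.1 ∧ u.2 ≠ v.2

/-- the polynomial ring: `(v, true)` is `x_v` and `(v, false)` is `y_v` -/
abbrev S (K : Type) [Field K] (n : ℕ) := MvPolynomial (V n × Bool) K

/-- connected inside the vertex set `W` -/
def Conn {n : ℕ} (W : Set (V n)) : V n → V n → Prop :=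
  ReflTransGen fun a b => a ∈ W ∧ b ∈ W ∧ Adj a b

variable (K : Type) [Field K] {n : ℕ}

noncomputable def minor (u v : V n) : S K n :=
  X (u, true) * X (v, false) - X (v, true) * X (u, false)

/-- the binomial edge ideal -/
noncomputable def J (n : ℕ) : Ideal (S K n) := Ideal.span {p | ∃ u v, Adj u v ∧ p = minor K u v}

/-- the prime `P_T` -/
noncomputable def P (T : Set (V n)) : Ideal (S K n) := Ideal.span ({p | ∃ u ∈ T, ∃ b, p = X (u, b)} ∪
  {p | ∃ u v, u ∉ T ∧ v ∉ T ∧ Conn Tᶜ u v ∧ p = minor K u v})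

abbrev Mon (n : ℕ) := (V n × Bool) →₀ ℕ

def dg (m : Mon n) (v : V n) : ℕ := m (v, true) + m (v, false)

def sp (a : V n → ℕ) : Set (V n) := {v | a v ≠ 0}

noncomputable abbrev e (v : V n) (b : Bool) : Mon n := Finsupp.single (v, b) 1

def Eqv (m m' : Mon n) : Prop := (monomial m 1 - monomial m' 1 : S K n) ∈ J K n

variable {K}

lemma Eqv.trans {a b c : Mon n} (h : Eqv K a b) (h' : Eqv K b c) : Eqv K a c := by
  have := (J K n).add_mem h h'
  rwa [sub_add_sub_cancel] at this

lemma Eqv.of_eq {a b : Mon n} (h : a = b) : Eqv K a b := by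
  rw [h, Eqv, sub_self]; exact zero_mem _

lemma eqv_adj {u v : V n} (h : Adj u v) (r : Mon n) :
    Eqv K (r + e u true + e v false) (r + e u false + e v true) := by
  have : minor K u v ∈ J K n := Ideal.subset_span ⟨u, v, h, rfl⟩
  have h2 := (J K n).mul_mem_left (monomial r 1) this
  unfold Eqv
  convert h2 using 1
  simp only [minor, X, mul_sub, monomial_mul, one_mul, add_assoc, add_comm (e v true)]

lemma Adj.symm {u v : V n} (h : Adj u v) : Adj v u := ⟨h.1.symm, h.2.symm⟩

lemma Conn.symm {W : Set (V n)} {u v : V n} (h : Conn W u v) : Conn W v u := by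
  induction h with
  | refl => exact .refl
  | tail _ h ih => exact ReflTransGen.head ⟨h.2.1, h.1, h.2.2.symm⟩ ih

lemma bb : ∀ {a b s : Bool}, a ≠ s → b ≠ s → a = b := by decide

lemma split (r : Mon n) (p : V n × Bool) (h : r p ≠ 0) : ∃ r', r = r' + Finsupp.single p 1 :=
  ⟨r - Finsupp.single p 1, (tsub_add_cancel_of_le
    (Finsupp.single_le_iff.2 (Nat.one_le_iff_ne_zero.2 h))).symm⟩

lemma dg_add (a b : Mon n) : dg (a + b) = dg a + dg b := by
  funext v; simp [dg]; ring

lemma dg_e (v : V n) (b : Bool) : dg (e v b) = Pi.single v 1 := by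
  funext u
  by_cases h : u = v
  · subst h; cases b <;> simp [dg]
  · simp [dg, h, Finsupp.single_apply, Ne.symm h]

lemma swap (a : V n → ℕ) {u w : V n} (h : Conn (sp a) u w) : ∀ r : Mon n,
    dg (r + e u true + e w false) = a →
    Eqv K (r + e u true + e w false) (r + e u false + e w true) := by
  induction h using ReflTransGen.head_induction_on with
  | refl => intro r _; exact .of_eq (add_right_comm _ _ _)
  | @head u v h _ ih =>
    intro r hr
    by_cases hv : v = w
    · subst hv; exact eqv_adj h.2.2 r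
    have hu : v ≠ u := fun c => h.2.2.1 (by rw [c])
    have h1 : r (v, true) + r (v, false) ≠ 0 := by
      have := h.2.1
      rw [← hr] at this
      simpa [sp, dg_add, dg_e, hv, hu, dg] using this
    simp only [dg_add, dg_e] at hr
    by_cases c : r (v, false) = 0
    · obtain ⟨r', rfl⟩ := split r (v, true) (by omega)
      have i := ih (r' + e u true) (by rw [← hr]; simp only [dg_add, dg_e]; abel)
      have j := eqv_adj (K := K) h.2.2 (r' + e w true)
      exact ((Eqv.of_eq (by abel)).trans i).trans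
        (((Eqv.of_eq (by abel)).trans j).trans (.of_eq (by abel)))
    · obtain ⟨r', rfl⟩ := split r (v, false) c
      have i := ih (r' + e u false) (by rw [← hr]; simp only [dg_add, dg_e]; abel)
      have j := eqv_adj (K := K) h.2.2 (r' + e w false)
      exact ((Eqv.of_eq (by abel)).trans j).trans
        (((Eqv.of_eq (by abel)).trans i).trans (.of_eq (by abel)))

def col (W : Set (V n)) (v : V n) : Set (V n) := {u | Conn W v u}

lemma col_eq {W : Set (V n)} {u v : V n} : col W u = col W v ↔ Conn W u v :=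
  ⟨fun h => (show v ∈ col W u by rw [h]; exact ReflTransGen.refl),
    fun h => Set.ext fun _ => ⟨fun k => h.symm.trans k, fun k => h.trans k⟩⟩

open Classical in
noncomputable def xc (W : Set (V n)) (m : Mon n) (γ : Set (V n)) : ℕ :=
  ∑ v, if col W v = γ then m (v, true) else 0

def Sep (W : Set (V n)) (a : V n → ℕ) : Prop :=
  ∀ u ∈ sp a, ∀ v ∈ sp a, Conn W u v → Conn (sp a) u v

lemma mon_ext {m m' : Mon n} (h : dg m = dg m') (h' : ∀ v, m (v, true) = m' (v, true)) :
    m = m' := by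
  ext ⟨v, b⟩
  have := congrFun h v
  have := h' v
  cases b <;> simp only [dg] at * <;> omega

lemma le_eq {W : Set (V n)} {m m' : Mon n} (hx : xc W m = xc W m') (v : V n)
    (h : ∀ u, col W u = col W v → m (u, true) ≤ m' (u, true)) : m (v, true) = m' (v, true) := by
  classical
  have := (sum_eq_sum_iff_of_le (s := univ) (f := fun u => if col W u = col W v then m (u, true) else 0)
    (g := fun u => if col W u = col W v then m' (u, true) else 0) fun u _ => by
      split_ifs with c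
      exacts [h u c, le_rfl]).1 (congrFun hx (col W v)) v (mem_univ _)
  simpa using this

lemma eqv_of (W : Set (V n)) (m' : Mon n) (hs : Sep W (dg m')) (N : ℕ) : ∀ m : Mon n,
    ∑ v, (m (v, true) - m' (v, true)) ≤ N → dg m = dg m' → xc W m = xc W m' → Eqv K m m' := by
  classical
  induction N with
  | zero =>
    intro m h hd hx
    refine .of_eq (mon_ext hd fun v => le_eq hx v fun u _ => ?_)
    have := sum_eq_zero_iff.1 (Nat.le_zero.1 h) u (mem_univ _)
    omega
  | succ N ih =>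
    intro m h hd hx
    by_cases c : ∀ u, m (u, true) ≤ m' (u, true)
    · exact .of_eq (mon_ext hd fun v => le_eq hx v fun u _ => c u)
    push Not at c
    obtain ⟨u, hu⟩ := c
    obtain ⟨w, hw, hw'⟩ : ∃ w, col W w = col W u ∧ m (w, true) < m' (w, true) := by
      by_contra k
      push Not at k
      exact hu.ne (le_eq hx.symm u k)
    have huw : u ≠ w := by rintro rfl; omega
    have d1 := congrFun hd u
    have d2 := congrFun hd w
    simp only [dg] at d1 d2
    obtain ⟨r1, rfl⟩ := split m (w, false) (by omega)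
    obtain ⟨r, rfl⟩ := split r1 (u, true) (by simp at hu; omega)
    refine (swap (dg m') (hs u ?_ w ?_ (col_eq.1 hw.symm)) r hd).trans (ih _ ?_ ?_ ?_)
    · simp only [sp, dg, Set.mem_ofPred_eq]; omega
    · simp only [sp, dg, Set.mem_ofPred_eq]; omega
    · refine Nat.lt_succ_iff.1 (lt_of_lt_of_le (sum_lt_sum (fun v _ => ?_) ⟨u, mem_univ _, ?_⟩) h)
      · by_cases c : v = w
        · subst c; simp [huw] at hw' ⊢; omega
        · simp [Finsupp.single_apply, Ne.symm c]; omega
      · simp [huw.symm] at hu ⊢; omega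
    · rw [← hd]; simp only [dg_add, dg_e]
    · rw [← hx]
      funext γ
      have : ∀ (r : Mon n) (u w : V n), (∑ v, if col W v = γ then
          (r + e u true + e w false) (v, true) else 0) =
          (∑ v, if col W v = γ then r (v, true) else 0) + if col W u = γ then 1 else 0 := by
        intro r u w
        rw [← sum_ite_eq_of_mem univ u (fun v => if col W v = γ then 1 else 0) (mem_univ _),
          ← sum_add_distrib]
        refine sum_congr rfl fun v _ => ?_
        by_cases c : u = v <;> simp [Finsupp.single_apply, c]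
        split_ifs <;> simp
      unfold xc
      rw [add_right_comm, this, this, hw]

noncomputable def ev (W : Set (V n)) (p : V n × Bool) : Set (V n) ⊕ V n →₀ ℕ :=
  Finsupp.single (.inl (col W p.1)) (if p.2 then 1 else 0) + Finsupp.single (.inr p.1) 1

noncomputable def F (W : Set (V n)) (m : Mon n) : Set (V n) ⊕ V n →₀ ℕ := ∑ p, m p • ev W p

lemma F_inl (W : Set (V n)) (m : Mon n) (γ : Set (V n)) : F W m (.inl γ) = xc W m γ := by
  classical
  simp [F, xc, ev, Fintype.sum_prod_type, Finsupp.single_apply, Finsupp.finsetSum_apply]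

lemma F_inr (W : Set (V n)) (m : Mon n) (v : V n) : F W m (.inr v) = dg m v := by
  classical
  rw [F, Finsupp.finsetSum_apply, Fintype.sum_prod_type]
  simp [dg, ev, Finsupp.single_apply, sum_add_distrib]

open Classical in
noncomputable def φ (W : Set (V n)) : S K n →ₐ[K] MvPolynomial (Set (V n) ⊕ V n) K :=
  aeval fun p => if p.1 ∈ W then monomial (ev W p) 1 else 0

open Classical in
lemma φ_mon (W : Set (V n)) (m : Mon n) (r : K) :
    φ W (monomial m r) = if sp (dg m) ⊆ W then monomial (F W m) r else 0 := by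
  rw [φ, aeval_monomial, Finsupp.prod_fintype _ _ (by simp)]
  split_ifs with h
  · have : ∀ p : V n × Bool, (if p.1 ∈ W then monomial (ev W p) (1 : K) else 0) ^ m p
        = monomial (m p • ev W p) 1 := by
      intro ⟨v, b⟩
      split_ifs with c
      · simp [monomial_pow]
      · have : m (v, b) = 0 := by
          by_contra k
          exact c (h (by cases b <;> simp only [sp, dg, Set.mem_ofPred_eq] <;> omega))
        simp [this]
    simp only [this, F]
    rw [← monomial_sum_one, algebraMap_eq, C_mul_monomial, mul_one]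
  · obtain ⟨v, h1, h2⟩ := Set.not_subset.1 h
    obtain ⟨b, hb⟩ : ∃ b, m (v, b) ≠ 0 := by
      by_contra k
      push Not at k
      exact h1 (by simp [dg, k])
    rw [prod_eq_zero (mem_univ (v, b)) (by simp [h2, hb]), mul_zero]

lemma φ_minor {W : Set (V n)} {u v : V n} (hu : u ∈ W) (hv : v ∈ W) :
    φ W (minor K u v) = (X (.inl (col W u)) - X (.inl (col W v))) * X (.inr u) * X (.inr v) := by
  simp only [φ, minor, map_sub, map_mul, aeval_X, if_pos hu, if_pos hv, ev]
  simp only [X, monomial_mul, sub_mul]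
  simp [add_assoc, add_comm, add_left_comm]

lemma φ_J (W : Set (V n)) {g : S K n} (h : g ∈ J K n) : φ W g = 0 := by
  refine (Ideal.span_le (I := RingHom.ker (φ W : S K n →ₐ[K] _))).2 ?_ h
  rintro _ ⟨u, v, a, rfl⟩
  change φ W _ = 0
  by_cases hu : u ∈ W
  · by_cases hv : v ∈ W
    · rw [φ_minor hu hv, col_eq.2 (ReflTransGen.single ⟨hu, hv, a⟩)]; simp
    · simp [φ, minor, hv]
  · simp [φ, minor, hu]

def Det (T W : Set (V n)) : Prop := (∃ t ∈ T, t ∈ W) ∨
  ∃ u ∈ W, ∃ v ∈ W, u ∉ T ∧ v ∉ T ∧ Conn Tᶜ u v ∧ ¬ Conn W u v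

lemma φ_f {T W : Set (V n)} (hd : Det T W) {f : S K n} (hf : ∀ p ∈ P K T, p * f ∈ J K n) :
    φ W f = 0 := by
  rcases hd with ⟨t, h1, h2⟩ | ⟨u, hu, v, hv, a, b, c, d⟩
  · have := φ_J W (hf (X (t, false)) (Ideal.subset_span (Or.inl ⟨t, h1, false, rfl⟩)))
    rw [map_mul] at this
    refine (mul_eq_zero.1 this).resolve_left ?_
    simp [φ, h2]
  · have := φ_J W (hf (minor K u v) (Ideal.subset_span (Or.inr ⟨u, v, a, b, c, rfl⟩)))
    rw [map_mul, φ_minor hu hv] at this
    refine (mul_eq_zero.1 this).resolve_left (mul_ne_zero (mul_ne_zero ?_ (X_ne_zero _)) (X_ne_zero _))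
    exact sub_ne_zero.2 fun h => d (col_eq.1 (Sum.inl_injective (X_injective h)))

open Classical in
lemma fibre {W : Set (V n)} {f : S K n} (h : φ W f = 0) (m0 : Mon n) (h0 : sp (dg m0) ⊆ W) :
    ∑ m ∈ f.support with dg m = dg m0 ∧ xc W m = xc W m0, coeff m f = 0 := by
  have h1 := congrArg (coeff (F W m0)) h
  rw [f.as_sum, map_sum, coeff_sum, coeff_zero] at h1
  rw [sum_filter]
  refine Eq.trans (sum_congr rfl fun m _ => ?_) h1
  rw [φ_mon]
  by_cases c : dg m = dg m0 ∧ xc W m = xc W m0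
  · have : F W m = F W m0 := by
      ext (γ | v)
      · rw [F_inl, F_inl, c.2]
      · rw [F_inr, F_inr, c.1]
    rw [if_pos c, if_pos (c.1 ▸ h0), coeff_monomial, if_pos this]
  · rw [if_neg c]
    split_ifs
    · rw [coeff_monomial, if_neg fun k => c ⟨funext fun v => ?_, funext fun γ => ?_⟩]
      · rw [← F_inr W, ← F_inr W, k]
      · rw [← F_inl, ← F_inl, k]
    · simp

def Pure (W : Set (V n)) (m : Mon n) : Prop := ∀ v, (∀ u, Conn W u v → m (u, true) = 0) ∨
  ∀ u, Conn W u v → m (u, false) = 0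

lemma mem_J {T : Set (V n)} {f : S K n} (hf : ∀ p ∈ P K T, p * f ∈ J K n)
    (h : ∀ m ∈ f.support, (∃ W, Det T W ∧ sp (dg m) ⊆ W ∧ Sep W (dg m)) ∨
      ∃ W, Det T W ∧ sp (dg m) ⊆ W ∧ Pure W m) : f ∈ J K n := by
  classical
  have h1 : ∀ m ∈ f.support, ∃ W, Det T W ∧ sp (dg m) ⊆ W ∧ Sep W (dg m) := by
    intro m hm
    refine (h m hm).resolve_right fun ⟨W, d, s, p⟩ => ?_
    have := fibre (φ_f d hf) m s
    rw [sum_eq_single_of_mem m (by simp [mem_support_iff.1 hm]) fun m' hm' ne => ?_] at this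
    · exact mem_support_iff.1 hm this
    obtain ⟨-, a, b⟩ := mem_filter.1 hm'
    refine (ne (mon_ext a fun v => ?_)).elim
    rcases p v with k | k
    · exact (le_eq b.symm v fun u hu => by rw [k u (col_eq.1 hu)]; exact Nat.zero_le _).symm
    · refine le_eq b v fun u hu => ?_
      have := congrFun a u
      have := k u (col_eq.1 hu)
      simp only [dg] at *
      omega
  have h2 : ∀ a : V n → ℕ, ∃ W, ∀ m ∈ f.support, dg m = a →
      Det T W ∧ sp (dg m) ⊆ W ∧ Sep W (dg m) := by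
    intro a
    by_cases c : ∃ m ∈ f.support, dg m = a
    · obtain ⟨m, hm, rfl⟩ := c
      obtain ⟨W, hW⟩ := h1 m hm
      exact ⟨W, fun m' _ k => k ▸ hW⟩
    · exact ⟨∅, fun m hm k => (c ⟨m, hm, k⟩).elim⟩
  choose W hW using h2
  let κ : Mon n → (V n → ℕ) × (Set (V n) → ℕ) := fun m => (dg m, xc (W (dg m)) m)
  rw [f.as_sum, ← sum_fiberwise_of_maps_to (t := f.support.image κ) (g := κ)
    fun m hm => mem_image_of_mem _ hm]
  refine Ideal.sum_mem _ fun k hk => ?_
  obtain ⟨m0, hm0, rfl⟩ := mem_image.1 hk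
  obtain ⟨d, s, p⟩ := hW _ m0 hm0 rfl
  have e1 : ∀ m, κ m = κ m0 ↔ dg m = dg m0 ∧ xc (W (dg m0)) m = xc (W (dg m0)) m0 := by
    intro m
    simp only [κ, Prod.mk.injEq]
    exact ⟨fun ⟨a, b⟩ => ⟨a, a ▸ b⟩, fun ⟨a, b⟩ => ⟨a, a ▸ b⟩⟩
  have e2 := fibre (φ_f d hf) m0 s
  have e3 : ∑ m ∈ f.support with κ m = κ m0, monomial m (coeff m f) =
      ∑ m ∈ f.support with κ m = κ m0, C (coeff m f) * (monomial m 1 - monomial m0 1 : S K n) := by
    simp only [mul_sub, sum_sub_distrib, C_mul_monomial, mul_one, ← map_sum, e1]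
    rw [e2]; simp
  rw [e3]
  refine Ideal.sum_mem _ fun m hm => Ideal.mul_mem_left _ _ ?_
  obtain ⟨a, b⟩ := (e1 m).1 (mem_filter.1 hm).2
  exact eqv_of _ m0 p _ m le_rfl a b

lemma sep_pendant (a : V n → ℕ) (x : V n)
    (h : ∀ u ∈ sp a, ∀ v ∈ sp a, Adj u x → Adj v x → u = v) : Sep (insert x (sp a)) a := by
  intro u hu v hv c
  suffices k : (v ∈ sp a → Conn (sp a) u v) ∧
      (v ∉ sp a → ∃ y ∈ sp a, Adj y x ∧ Conn (sp a) u y) from k.1 hv
  clear hv
  induction c with
  | refl => exact ⟨fun _ => .refl, fun k => (k hu).elim⟩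
  | @tail b c _ k ih =>
    obtain ⟨k1, k2, k3⟩ := k
    by_cases hb : b ∈ sp a
    · refine ⟨fun hc => (ih.1 hb).tail ⟨hb, hc, k3⟩, fun hc => ⟨b, hb, ?_, ih.1 hb⟩⟩
      rwa [← k2.resolve_right hc]
    · obtain ⟨y, y1, y2, y3⟩ := ih.2 hb
      refine ⟨fun hc => ?_, fun _ => ⟨y, y1, y2, y3⟩⟩
      rwa [h c hc y y1 (by rw [← k1.resolve_right hb]; exact k3.symm) y2]

lemma iso {W : Set (V n)} {x u : V n} (h : ∀ v ∈ W, ¬ Adj x v) (c : Conn W x u) : x = u := by
  rcases c.cases_head with k | ⟨v, k, -⟩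
  exacts [k, (h v k.2.1 k.2.2).elim]

lemma third (hn : 4 ≤ n) (i j : Fin n) : ∃ k : Fin n, k ≠ i ∧ k ≠ j := by
  by_contra h
  push Not at h
  have : (univ : Finset (Fin n)) ⊆ {i, j} := fun k _ => by
    by_cases c : k = i
    · simp [c]
    · simp [h k c]
  have h2 := (card_le_card this).trans card_le_two
  simp at h2; omega

lemma four {a : V n → ℕ} (h : ∑ v, a v ≤ 3) {p q r : V n} (hp : p ∈ sp a) (hq : q ∈ sp a)
    (hr : r ∈ sp a) (pq : p ≠ q) (pr : p ≠ r) (qr : q ≠ r) :
    (∀ v ∈ sp a, v = p ∨ v = q ∨ v = r) ∧ a p = 1 ∧ a q = 1 ∧ a r = 1 := by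
  simp only [sp, Set.mem_ofPred_eq] at *
  constructor
  · intro v hv
    by_contra k
    push Not at k
    have := sum_le_sum_of_subset (f := a) (subset_univ {v, p, q, r})
    rw [sum_insert (by simp [k]), sum_insert (by simp [pq, pr]), sum_pair qr] at this
    omega
  · have := sum_le_sum_of_subset (f := a) (subset_univ {p, q, r})
    rw [sum_insert (by simp [pq, pr]), sum_pair qr] at this
    omega

lemma pure3 {T : Set (V n)} {s : Bool} (hT : ∀ t ∈ T, t.2 = s) (m : Mon n) {p q r : V n}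
    (hp : p.2 ≠ s) (hq : q.2 ≠ s) (hr : r.2 ≠ s) (pq : p ≠ q) (pr : p ≠ r) (qr : q ≠ r)
    (h : ∀ v ∈ sp (dg m), v = p ∨ v = q ∨ v = r) (p1 : dg m p = 1) (q1 : dg m q = 1)
    (r1 : dg m r = 1) (e : m (q, true) = m (r, true)) :
    ∃ W, Det T W ∧ sp (dg m) ⊆ W ∧ Pure W m := by
  have side : ∀ v ∈ sp (dg m), v.2 ≠ s := by
    intro v hv; rcases h v hv with rfl | rfl | rfl <;> assumption
  have nadj : ∀ u v : V n, u.2 ≠ s → v.2 ≠ s → ¬ Adj u v := fun u v a b c =>
    c.2 (bb a b)
  have pure : ∀ W, (∀ v ∈ W, ¬ Adj p v) → Pure W m := by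
    intro W hW v
    have z : ∀ u b, u ≠ p → u ≠ q → u ≠ r → m (u, b) = 0 := by
      intro u b a1 a2 a3
      have : dg m u = 0 := by
        by_contra k; rcases h u k with c | c | c <;> contradiction
      cases b <;> simp only [dg] at this <;> omega
    simp only [dg] at p1 q1 r1
    by_cases c : v = p
    · subst c
      have k : ∀ u, Conn W u v → u = v := fun u k => (iso hW k.symm).symm
      by_cases d : m (v, true) = 0
      · exact Or.inl fun u hu => by rw [k u hu]; exact d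
      · exact Or.inr fun u hu => by rw [k u hu]; omega
    · have k : ∀ u, Conn W u v → u ≠ p := fun u k d => c (iso hW (d ▸ k)).symm
      by_cases d : m (q, true) = 0
      · refine Or.inl fun u hu => ?_
        by_cases a : u = q
        · rw [a, d]
        by_cases b : u = r
        · rw [b, ← e, d]
        exact z u _ (k u hu) a b
      · refine Or.inr fun u hu => ?_
        by_cases a : u = q
        · rw [a]; omega
        by_cases b : u = r
        · rw [b]; omega
        exact z u _ (k u hu) a b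
  have sp' : p ∈ sp (dg m) := by simp [sp, p1]
  have sq : q ∈ sp (dg m) := by simp [sp, q1]
  have sr : r ∈ sp (dg m) := by simp [sp, r1]
  by_cases c : (p.1, s) ∈ T
  · refine ⟨insert (p.1, s) (sp (dg m)), Or.inl ⟨_, c, Or.inl rfl⟩, Set.subset_insert _ _,
      pure _ ?_⟩
    rintro v (rfl | hv)
    · exact fun k => k.1 rfl
    · exact nadj _ _ hp (side v hv)
  · have ne : ∀ v : V n, v.2 ≠ s → p ≠ v → (p.1, s).1 ≠ v.1 := fun v a b k =>
      b (Prod.ext k (bb hp a))
    refine ⟨sp (dg m), Or.inr ⟨q, sq, r, sr, fun k => hq (hT _ k), fun k => hr (hT _ k), ?_,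
      fun k => qr (iso (fun v hv => nadj _ _ hq (side v hv)) k)⟩, le_rfl,
      pure _ fun v hv => nadj _ _ hp (side v hv)⟩
    exact (ReflTransGen.single ⟨fun k => hq (hT _ k), c, (ne q hq pq).symm, hq⟩).tail
      ⟨c, fun k => hr (hT _ k), ne r hr pr, hr.symm⟩

lemma cases (hn : 4 ≤ n) (T : Set (V n)) (m : Mon n) (h : ∑ v, dg m v ≤ 3) :
    (∃ W, Det T W ∧ sp (dg m) ⊆ W ∧ Sep W (dg m)) ∨
      ∃ W, Det T W ∧ sp (dg m) ⊆ W ∧ Pure W m := by
  set a := dg m with ha
  let small : Bool → Prop := fun s => ∀ u ∈ sp a, ∀ v ∈ sp a, u.2 ≠ s → v.2 ≠ s → u = v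
  have pend : ∀ t ∈ T, (∀ u ∈ sp a, ∀ v ∈ sp a, Adj u t → Adj v t → u = v) →
      ∃ W, Det T W ∧ sp a ⊆ W ∧ Sep W a := fun t ht k =>
    ⟨insert t (sp a), Or.inl ⟨t, ht, Or.inl rfl⟩, Set.subset_insert _ _, sep_pendant a t k⟩
  have pend' : ∀ t ∈ T, small t.2 → ∃ W, Det T W ∧ sp a ⊆ W ∧ Sep W a := fun t ht k =>
    pend t ht fun u hu v hv c d => k u hu v hv c.2 d.2
  have sm : ∀ s, small s ∨ small !s := by
    intro s
    by_contra k
    simp only [small, not_or, not_forall] at k
    obtain ⟨⟨p, hp, q, hq, p1, q1, pq⟩, ⟨r, hr, t, ht, r1, t1, rt⟩⟩ := k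
    have d : ∀ u v : V n, u.2 ≠ s → v.2 ≠ !s → u ≠ v := by
      rintro u v a b rfl; revert a b; cases s <;> cases u.2 <;> decide
    rcases (four h hp hq hr pq (d _ _ p1 r1) (d _ _ q1 r1)).1 t ht with c | c | c
    exacts [d _ _ p1 t1 c.symm, d _ _ q1 t1 c.symm, rt c.symm]
  rcases T.eq_empty_or_nonempty with rfl | ⟨t, ht⟩
  · left
    obtain ⟨s, hs⟩ : ∃ s, small s := (sm true).elim (⟨_, ·⟩) (⟨_, ·⟩)
    have st : ∀ u v : V n, Adj u v → Conn (∅ : Set (V n))ᶜ u v :=
      fun u v k => .single ⟨by simp, by simp, k⟩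
    by_cases c : ∃ u ∈ sp a, u.2 ≠ s
    · obtain ⟨u, hu, us⟩ := c
      have na : ∀ v ∈ sp a, ¬ Adj (u.1, s) v := fun v hv k =>
        k.1 (by rw [hs u hu v hv us k.2.symm])
      refine ⟨insert (u.1, s) (sp a), Or.inr ⟨(u.1, s), Or.inl rfl, u, Or.inr hu, by simp, by simp,
        ?_, fun k => us ?_⟩, Set.subset_insert _ _,
        sep_pendant a _ fun v hv _ _ k _ => (na v hv k.symm).elim⟩
      · obtain ⟨k, k1, -⟩ := third hn u.1 u.1
        obtain ⟨l, l1, l2⟩ := third hn u.1 k
        exact ((st (u.1, s) (k, u.2) ⟨k1.symm, us.symm⟩).trans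
          (st (k, u.2) (l, s) ⟨l2.symm, us⟩)).trans (st (l, s) u ⟨l1, us.symm⟩)
      · rw [← iso (by rintro v (rfl | hv); exacts [fun k => k.1 rfl, na v hv]) k]
    · push Not at c
      have na : ∀ u : V n, u.2 = s → ∀ v ∈ {v : V n | v.2 = s}, ¬ Adj u v := fun u hu v hv k =>
        k.2 (hu.trans hv.symm)
      obtain ⟨i, -⟩ := third hn ⟨0, by omega⟩ ⟨0, by omega⟩
      obtain ⟨j, j1, -⟩ := third hn i i
      obtain ⟨k, k1, k2⟩ := third hn i j
      refine ⟨{v | v.2 = s}, Or.inr ⟨(i, s), rfl, (j, s), rfl, by simp, by simp, ?_,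
        fun d => j1 (congrArg Prod.fst (iso (na _ rfl) d)).symm⟩, c, fun u hu v _ d => ?_⟩
      · exact (st (i, s) (k, !s) ⟨k1.symm, by simp⟩).trans
          (st (k, !s) (j, s) ⟨k2, by simp⟩)
      · rw [← iso (na u (c u hu)) d]; exact .refl
  by_cases c : small t.2
  · exact Or.inl (pend' t ht c)
  by_cases c2 : ∃ t' ∈ T, t'.2 ≠ t.2
  · obtain ⟨t', h1, h2⟩ := c2
    refine Or.inl (pend' t' h1 ?_)
    rw [show t'.2 = !t.2 from bb h2 (by simp)]
    exact (sm t.2).resolve_left c
  push Not at c2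
  simp only [small, not_forall] at c
  obtain ⟨p, hp, q, hq, p1, q1, pq⟩ := c
  by_cases c3 : ∃ r ∈ sp a, r.2 ≠ t.2 ∧ p ≠ r ∧ q ≠ r
  · obtain ⟨r, hr, r1, pr, qr⟩ := c3
    obtain ⟨k, a1, a2, a3⟩ := four h hp hq hr pq pr qr
    right
    by_cases e1 : m (q, true) = m (r, true)
    · exact pure3 c2 m p1 q1 r1 pq pr qr k a1 a2 a3 e1
    by_cases e2 : m (p, true) = m (r, true)
    · exact pure3 c2 m q1 p1 r1 (Ne.symm pq) qr pr (fun v hv => by have := k v hv; tauto)
        a2 a1 a3 e2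
    refine pure3 c2 m r1 p1 q1 pr.symm qr.symm pq (fun v hv => by have := k v hv; tauto)
      a3 a1 a2 ?_
    simp only [ha, dg] at a1 a2 a3
    omega
  left
  have two : ∀ v ∈ sp a, v.2 ≠ t.2 → v = p ∨ v = q := by
    intro v hv k
    by_contra d
    push Not at d
    exact c3 ⟨v, hv, k, d.1.symm, d.2.symm⟩
  by_cases d1 : (p.1, t.2) ∈ T
  · have : ∀ u ∈ sp a, Adj u (p.1, t.2) → u = q := fun u hu k =>
      (two u hu k.2).resolve_left fun d => k.1 (by rw [d])
    exact pend _ d1 fun u hu v hv k l => (this u hu k).trans (this v hv l).symm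
  by_cases d2 : (q.1, t.2) ∈ T
  · have : ∀ u ∈ sp a, Adj u (q.1, t.2) → u = p := fun u hu k =>
      (two u hu k.2).resolve_right fun d => k.1 (by rw [d])
    exact pend _ d2 fun u hu v hv k l => (this u hu k).trans (this v hv l).symm
  have pq2 : p.2 = q.2 := bb p1 q1
  have pq1 : p.1 ≠ q.1 := fun k => pq (Prod.ext k pq2)
  by_cases d3 : Conn (sp a) p q
  · refine ⟨Set.univ, Or.inl ⟨t, ht, trivial⟩, Set.subset_univ _, fun u hu v hv _ => ?_⟩
    rcases d3.cases_head with k | ⟨i, k, -⟩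
    · exact (pq k).elim
    have all := (four h hp hq k.2.1 pq (fun d => k.2.2.2 (by rw [d]))
      (fun d => k.2.2.2 (by rw [← d, pq2]))).1
    have cp : ∀ u ∈ sp a, Conn (sp a) p u := by
      intro u hu
      rcases all u hu with rfl | rfl | rfl
      exacts [.refl, d3, .single k]
    exact (cp u hu).symm.trans (cp v hv)
  · obtain ⟨l, l1, l2⟩ := third hn p.1 q.1
    have nt : ∀ v : V n, v.2 ≠ t.2 → v ∈ Tᶜ := fun v k d => k (c2 v d)
    refine ⟨sp a, Or.inr ⟨p, hp, q, hq, nt p p1, nt q q1, ?_, d3⟩, le_rfl, fun _ _ _ _ k => k⟩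
    exact (((ReflTransGen.single ⟨nt p p1, d2, pq1, p1⟩).tail
      ⟨d2, nt (l, p.2) p1, l2.symm, p1.symm⟩).tail ⟨nt (l, p.2) p1, d1, l1, p1⟩).tail
      ⟨d1, nt q q1, pq1, q1.symm⟩

theorem result (K : Type) [Field K] (n : ℕ) (hn : 4 ≤ n) (T : Set (V n)) (f : S K n)
    (hf : f.totalDegree ≤ 3) : (J K n).colon {f} ≠ P K T := by
  intro h
  have h1 : f ∈ J K n := by
    refine mem_J (T := T) (fun p hp => ?_) fun m hm => cases hn T m ?_
    · rw [← h, Submodule.mem_colon_singleton] at hp; exact hp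
    · refine le_trans (le_of_eq ?_) ((le_totalDegree hm).trans hf)
      rw [Finsupp.sum_fintype _ _ (by simp), Fintype.sum_prod_type (f := fun p => m p)]
      simp [dg]
  have h2 : (1 : S K n) ∈ P K T := by
    rw [← h, Submodule.mem_colon_singleton]; simpa using h1
  have h3 : P K T ≤ RingHom.ker (constantCoeff : S K n →+* K) := by
    refine Ideal.span_le.2 ?_
    rintro _ (⟨u, -, b, rfl⟩ | ⟨u, v, -, -, -, rfl⟩) <;> simp [minor]
  simpa using h3 h2

end Pool.Agent.Results.MP_354fda_al.Yes
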